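import Mathlib
import Pool.Agent.H581R.FF.Stubs2
import Pool.Agent.H735G.Defs

/-! Basic facts on a C*-algebra with a tracial state, which need not be faithful. -/

set_option autoImplicit false

open scoped ComplexOrder Topology InnerProductSpace ComplexConjugate
open Filter

namespace Pool.Agent.H667R4.AF

open Pool.Agent.H581R.FF (GR ev bs st l1 l2 Bdd IsDer)
open Pool.Agent.H735G (TS)

/-- the 2-seminorm -/
noncomputable abbrev nn {A : Type} [CStarAlgebra A] (φ : A →ₗ[ℂ] ℂ) (x : A) : ℝ :=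
  Pool.Agent.H467F.n2 φ x

variable {A : Type} [CStarAlgebra A] {φ : A →ₗ[ℂ] ℂ}

/-- inner product core -/
@[instance_reducible]
noncomputable def core (h : TS φ) : PreInnerProductSpace.Core ℂ A where
  inner x y := φ (star x * y)
  conj_inner_symm x y := by
    have : φ (star (star y * x)) = star (φ (star y * x)) := h.conj _
    rw [star_mul, star_star] at this
    rw [this]
    rfl
  re_inner_nonneg x := by
    have := (Complex.nonneg_iff.1 (h.nonneg x)).1
    exact this
  add_left x y z := by rw [star_add, add_mul, map_add]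
  smul_left x y r := by
    rw [star_smul, smul_mul_assoc, map_smul]
    rfl

theorem cauchy (h : TS φ) (x y : A) : ‖φ (star x * y)‖ ≤ nn φ x * nn φ y := by
  let _ := core h
  exact InnerProductSpace.Core.norm_inner_le_norm (𝕜 := ℂ) x y

theorem nn_nonneg (φ : A →ₗ[ℂ] ℂ) (x : A) : 0 ≤ nn φ x := Real.sqrt_nonneg _

theorem re_nonneg (h : TS φ) (x : A) : 0 ≤ (φ (star x * x)).re :=
  (Complex.nonneg_iff.1 (h.nonneg x)).1

theorem im_zero (h : TS φ) (x : A) : (φ (star x * x)).im = 0 :=
  (Complex.nonneg_iff.1 (h.nonneg x)).2.symm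

theorem nn_sq (h : TS φ) (x : A) : nn φ x ^ 2 = (φ (star x * x)).re :=
  Real.sq_sqrt (re_nonneg h x)

theorem nn_add_le (h : TS φ) (x y : A) : nn φ (x + y) ≤ nn φ x + nn φ y := by
  have h1 := cauchy h x y
  have h2 := cauchy h y x
  have h3 : nn φ (x + y) ^ 2 ≤ (nn φ x + nn φ y) ^ 2 := by
    rw [nn_sq h]
    have e : star (x + y) * (x + y) = star x * x + star y * y + (star x * y + star y * x) := by
      rw [star_add]; noncomm_ring
    rw [e, map_add, map_add, map_add, Complex.add_re, Complex.add_re, Complex.add_re,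
      ← nn_sq h, ← nn_sq h]
    have h4 := Complex.re_le_norm (φ (star x * y))
    have h5 := Complex.re_le_norm (φ (star y * x))
    nlinarith
  exact (pow_le_pow_iff_left₀ (nn_nonneg _ _) (add_nonneg (nn_nonneg _ _) (nn_nonneg _ _))
    two_ne_zero).1 h3

theorem nn_star (h : TS φ) (x : A) : nn φ (star x) = nn φ x := by
  unfold nn Pool.Agent.H467F.n2
  rw [star_star, h.comm]

theorem nn_neg (φ : A →ₗ[ℂ] ℂ) (x : A) : nn φ (-x) = nn φ x := by
  unfold nn Pool.Agent.H467F.n2
  rw [star_neg, neg_mul_neg]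

theorem nn_sub_le (h : TS φ) (x y : A) : nn φ (x - y) ≤ nn φ x + nn φ y := by
  have := nn_add_le h x (-y)
  rwa [nn_neg, ← sub_eq_add_neg] at this

theorem nn_sub_comm (φ : A →ₗ[ℂ] ℂ) (x y : A) : nn φ (x - y) = nn φ (y - x) := by
  rw [← nn_neg, neg_sub]

theorem nn_tri (h : TS φ) (x y z : A) : nn φ (x - z) ≤ nn φ (x - y) + nn φ (y - z) := by
  have := nn_add_le h (x - y) (y - z)
  rwa [sub_add_sub_cancel] at this

theorem nn_zero (φ : A →ₗ[ℂ] ℂ) : nn φ (0 : A) = 0 := by
  unfold nn Pool.Agent.H467F.n2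
  simp

theorem nn_smul (φ : A →ₗ[ℂ] ℂ) (c : ℂ) (x : A) : nn φ (c • x) = ‖c‖ * nn φ x :=
  Pool.Agent.H467F.n2_smul φ c x

theorem nn_mul_unitary (h : TS φ) (x : A) (u : unitary A) : nn φ (x * (u : A)) = nn φ x := by
  unfold nn Pool.Agent.H467F.n2
  rw [star_mul, mul_assoc, h.comm, mul_assoc, mul_assoc, Unitary.mul_star_self_of_mem u.2, mul_one]

theorem nn_unitary_mul (φ : A →ₗ[ℂ] ℂ) (x : A) (u : unitary A) : nn φ ((u : A) * x) = nn φ x := by
  unfold nn Pool.Agent.H467F.n2
  rw [star_mul, mul_assoc, ← mul_assoc (star (u : A)), Unitary.star_mul_self_of_mem u.2, one_mul]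

theorem bounds_diff (x : A) :
    ∃ y : A, ((‖x‖ ^ 2 : ℝ) : ℂ) • (1 : A) - star x * x = star y * y := by
  let _ := CStarAlgebra.spectralOrder A
  have _ := CStarAlgebra.spectralOrderedRing A
  have h1 : star x * x ≤ algebraMap ℝ A (‖x‖ ^ 2) := CStarAlgebra.star_mul_le_algebraMap_norm_sq
  have h2 : 0 ≤ algebraMap ℝ A (‖x‖ ^ 2) - star x * x := sub_nonneg.2 h1
  obtain ⟨y, hy⟩ := CStarAlgebra.nonneg_iff_eq_star_mul_self.1 h2
  refine ⟨y, ?_⟩
  rw [← hy, Algebra.algebraMap_eq_smul_one]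
  congr 1

theorem nn_le_norm (h : TS φ) (x : A) : nn φ x ≤ ‖x‖ := by
  obtain ⟨y, hy⟩ := bounds_diff x
  have h1 := re_nonneg h y
  rw [← hy, map_sub, map_smul, h.one, smul_eq_mul, mul_one, Complex.sub_re, Complex.ofReal_re,
    ← nn_sq h] at h1
  exact abs_le_of_sq_le_sq' (by linarith) (norm_nonneg x) |>.2

theorem norm_φ_le (h : TS φ) (x : A) : ‖φ x‖ ≤ ‖x‖ := by
  have h1 := cauchy h 1 x
  have h2 : nn φ (1 : A) = 1 := by
    unfold nn Pool.Agent.H467F.n2
    rw [star_one, one_mul, h.one]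
    simp
  rw [star_one, one_mul, h2, one_mul] at h1
  exact h1.trans (nn_le_norm h x)

/-- the tracial state as a continuous linear map -/
noncomputable def φL (h : TS φ) : A →L[ℂ] ℂ :=
  LinearMap.mkContinuous φ 1 (fun x => by rw [one_mul]; exact norm_φ_le h x)

theorem φL_apply (h : TS φ) (x : A) : φL h x = φ x := rfl

theorem nontriv (h : TS φ) : Nontrivial A := by
  refine ⟨⟨1, 0, ?_⟩⟩
  intro h0
  have := h.one
  rw [h0, map_zero] at this
  exact zero_ne_one this

theorem norm_unitary_le (u : unitary A) : ‖(u : A)‖ ≤ 1 := by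
  rcases subsingleton_or_nontrivial A with h | h
  · rw [Subsingleton.elim (u : A) 0, norm_zero]
    exact zero_le_one
  · exact (CStarRing.norm_coe_unitary u).le

/-! ### evaluations -/

section

variable {κ : Type}

/-- `π` has the law of the free generators -/
def Law (φ : A →ₗ[ℂ] ℂ) (π : FreeGroup κ →* unitary A) : Prop :=
  ∀ w : FreeGroup κ, w ≠ 1 → φ (π w : A) = 0

theorem ev_sum (π : FreeGroup κ →* unitary A) (f : GR κ) :
    ev π f = ∑ w ∈ f.coeff.support, f.coeff w • (π w : A) := by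
  unfold ev
  rw [MonoidAlgebra.lift_apply]
  rfl

theorem ev_bs (π : FreeGroup κ →* unitary A) (w : FreeGroup κ) : ev π (bs w) = (π w : A) := by
  simp [ev, bs]

theorem ev_norm (π : FreeGroup κ →* unitary A) (f : GR κ) : ‖ev π f‖ ≤ l1 f := by
  rw [ev_sum]
  refine (norm_sum_le _ _).trans ?_
  unfold l1
  refine Finset.sum_le_sum ?_
  intro w _
  rw [norm_smul]
  exact mul_le_of_le_one_right (norm_nonneg _) (norm_unitary_le _)

theorem ev_st (π : FreeGroup κ →* unitary A) (f : GR κ) : ev π (st f) = star (ev π f) := by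
  rw [ev_sum π f, star_sum]
  unfold st
  rw [Finsupp.sum, map_sum]
  refine Finset.sum_congr rfl fun w _ => ?_
  have e : (MonoidAlgebra.single w⁻¹ (conj (f.coeff w)) : GR κ) = conj (f.coeff w) • bs w⁻¹ := by
    simp [bs]
  rw [e, map_smul, ev_bs, star_smul, map_inv]
  rfl

theorem ev_φ (h : TS φ) (π : FreeGroup κ →* unitary A) (hπ : Law φ π) (f : GR κ) :
    φ (ev π f) = f.coeff 1 := by
  rw [ev_sum, map_sum]
  by_cases h1 : (1 : FreeGroup κ) ∈ f.coeff.support
  · rw [Finset.sum_eq_single_of_mem 1 h1]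
    · have h0 : π 1 = 1 := map_one π
      rw [map_smul, h0]
      show f.coeff 1 • φ (1 : A) = f.coeff 1
      rw [h.one, smul_eq_mul, mul_one]
    · intro w _ hw
      rw [map_smul, hπ w hw, smul_zero]
  · rw [Finset.sum_eq_zero]
    · exact (Finsupp.notMem_support_iff.1 h1).symm
    · intro w hw
      have : w ≠ 1 := by
        rintro rfl
        exact h1 hw
      rw [map_smul, hπ w this, smul_zero]

end

end Pool.Agent.H667R4.AF
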