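import Mathlib
import Pool.Agent.H667R4.AF.Basic

/-! Evaluations and flows in a C*-algebra with a tracial state. -/

set_option autoImplicit false

open scoped ComplexOrder Topology InnerProductSpace ComplexConjugate
open Filter Finset

namespace Pool.Agent.H667R4.AF

open Pool.Agent.H581R.FF (GR ev bs st l1 l2 Bdd IsDer)
open Pool.Agent.H735G (TS)

variable {A : Type} [CStarAlgebra A] {φ : A →ₗ[ℂ] ℂ} {κ : Type}

theorem φ_uu (h : TS φ) (π : FreeGroup κ →* unitary A) (hπ : Law φ π) [DecidableEq (FreeGroup κ)]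
    (v w : FreeGroup κ) : φ (star (π v : A) * (π w : A)) = if v = w then 1 else 0 := by
  have h1 : star (π v : A) * (π w : A) = (π (v⁻¹ * w) : A) := by
    rw [map_mul, map_inv]
    rfl
  rw [h1]
  by_cases hvw : v = w
  · subst hvw
    have h0 : π (v⁻¹ * v) = 1 := by rw [inv_mul_cancel, map_one]
    rw [if_pos rfl, h0]
    exact h.one
  · rw [if_neg hvw]
    refine hπ _ ?_
    intro h2
    exact hvw (inv_mul_eq_one.1 h2)

theorem ev_nn (h : TS φ) (π : FreeGroup κ →* unitary A) (hπ : Law φ π) (f : GR κ) :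
    nn φ (ev π f) = l2 f := by
  classical
  have h1 : φ (star (ev π f) * ev π f) = ∑ w ∈ f.coeff.support, ((‖f.coeff w‖ ^ 2 : ℝ) : ℂ) := by
    rw [ev_sum, star_sum, Finset.sum_mul, map_sum]
    refine Finset.sum_congr rfl fun v hv => ?_
    rw [Finset.mul_sum, map_sum]
    rw [Finset.sum_eq_single_of_mem v hv]
    · rw [star_smul, smul_mul_smul_comm, map_smul, φ_uu h π hπ, if_pos rfl, smul_eq_mul, mul_one]
      rw [Complex.star_def, ← Complex.normSq_eq_conj_mul_self, Complex.normSq_eq_norm_sq]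
    · intro w _ hw
      rw [star_smul, smul_mul_smul_comm, map_smul, φ_uu h π hπ, if_neg (Ne.symm hw), smul_zero]
  unfold nn Pool.Agent.H467F.n2 l2
  rw [h1, ← Complex.ofReal_sum, Complex.ofReal_re]

/-- `π'` is obtained from `π` by the flow of `D` for time `t` -/
def AFlow (D : GR κ →ₗ[ℂ] GR κ) (t : ℝ) (π π' : FreeGroup κ →* unitary A) : Prop :=
  ∀ f : GR κ, HasSum (fun n : ℕ => ((t : ℂ) ^ n / (n.factorial : ℂ)) • ev π (D^[n] f)) (ev π' f)

/-- the terms of the series -/
noncomputable def fa (D : GR κ →ₗ[ℂ] GR κ) (t : ℝ)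
    (π : FreeGroup κ →* unitary A) (n : ℕ) (f : GR κ) : A :=
  ((t : ℂ) ^ n / (n.factorial : ℂ)) • ev π (D^[n] f)

theorem iter_add (D : GR κ →ₗ[ℂ] GR κ) (n : ℕ) (f g : GR κ) :
    D^[n] (f + g) = D^[n] f + D^[n] g := by
  rw [← Module.End.coe_pow, map_add]

theorem iter_smul (D : GR κ →ₗ[ℂ] GR κ) (n : ℕ) (c : ℂ) (f : GR κ) :
    D^[n] (c • f) = c • D^[n] f := by
  rw [← Module.End.coe_pow, map_smul]

theorem iter_zero (D : GR κ →ₗ[ℂ] GR κ) (n : ℕ) : D^[n] (0 : GR κ) = 0 := by
  rw [← Module.End.coe_pow, map_zero]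

theorem iter_mul (D : GR κ →ₗ[ℂ] GR κ) (hD : ∀ x y, D (x * y) = D x * y + x * D y)
    (n : ℕ) (f g : GR κ) :
    D^[n] (f * g) = ∑ ij ∈ antidiagonal n, n.choose ij.1 • (D^[ij.1] f * D^[ij.2] g) := by
  induction n with
  | zero => simp
  | succ n ih =>
    rw [sum_antidiagonal_choose_succ_nsmul (fun i j => D^[i] f * D^[j] g) n]
    rw [Function.iterate_succ_apply', ih, map_sum]
    simp only [map_nsmul, hD, Function.iterate_succ_apply', smul_add, sum_add_distrib]
    rw [add_comm]
    congr 1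
    refine sum_congr rfl fun ij hij => ?_
    rw [n.choose_symm_of_eq_add (Finset.HasAntidiagonal.mem_antidiagonal.mp hij).symm]

section

variable (D : GR κ →ₗ[ℂ] GR κ) (t : ℝ) (π : FreeGroup κ →* unitary A)

theorem fa_add (n : ℕ) (f g : GR κ) : fa D t π n (f + g) = fa D t π n f + fa D t π n g := by
  unfold fa
  rw [iter_add, map_add, smul_add]

theorem fa_smul (n : ℕ) (c : ℂ) (f : GR κ) : fa D t π n (c • f) = c • fa D t π n f := by
  unfold fa
  rw [iter_smul, map_smul, smul_comm]

theorem fa_mul (hD : ∀ x y, D (x * y) = D x * y + x * D y) (n : ℕ) (f g : GR κ) :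
    fa D t π n (f * g) = ∑ ij ∈ antidiagonal n, fa D t π ij.1 f * fa D t π ij.2 g := by
  unfold fa
  rw [iter_mul D hD, map_sum, smul_sum]
  refine sum_congr rfl fun ij hij => ?_
  rw [map_nsmul, map_mul, smul_mul_smul_comm, ← Nat.cast_smul_eq_nsmul ℂ, smul_smul]
  congr 1
  obtain ⟨i, j⟩ := ij
  rw [Finset.HasAntidiagonal.mem_antidiagonal] at hij
  simp only at hij
  subst hij
  simp only
  have h1 : ((i + j).factorial : ℂ) = (i + j).choose i * i.factorial * j.factorial := by
    rw [← Nat.add_choose_mul_factorial_mul_factorial i j, Nat.choose_symm_add]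
    push_cast
    ring
  have h2 : (i.factorial : ℂ) ≠ 0 := by exact_mod_cast i.factorial_ne_zero
  have h3 : (j.factorial : ℂ) ≠ 0 := by exact_mod_cast j.factorial_ne_zero
  have h4 : ((i + j).factorial : ℂ) ≠ 0 := by exact_mod_cast (i + j).factorial_ne_zero
  field_simp
  rw [h1]
  ring

theorem fa_star (hD : ∀ x, D (st x) = st (D x)) (n : ℕ) (f : GR κ) :
    fa D t π n (st f) = star (fa D t π n f) := by
  have e : D^[n] (st f) = st (D^[n] f) := by
    induction n with
    | zero => rfl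
    | succ n ih => rw [Function.iterate_succ_apply', ih, hD, ← Function.iterate_succ_apply' (f := D)]
  unfold fa
  rw [e, ev_st, star_smul]
  congr 1
  simp

end

theorem st_bs (w : FreeGroup κ) : st (bs w) = bs w⁻¹ := by
  unfold st bs
  rw [MonoidAlgebra.coeff_single, Finsupp.sum_single_index]
  · simp
  · simp

theorem bs_mul (w w' : FreeGroup κ) : (bs w : GR κ) * bs w' = bs (w * w') := by
  simp

theorem bs_one : (bs (1 : FreeGroup κ) : GR κ) = 1 := rfl

theorem fa_bound [DecidableEq κ] (D : GR κ →ₗ[ℂ] GR κ) {K : ℝ} (hB : Bdd D K) (t : ℝ)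
    (π : FreeGroup κ →* unitary A) (n : ℕ) (w : FreeGroup κ) :
    ‖fa D t π n (bs w)‖ ≤ 2 ^ w.norm * (|t| * K) ^ n := by
  unfold fa
  rw [norm_smul]
  have hf : (0:ℝ) < n.factorial := by exact_mod_cast n.factorial_pos
  have hn : ‖((t : ℂ) ^ n / (n.factorial : ℂ))‖ = |t| ^ n / n.factorial := by
    rw [norm_div, norm_pow, Complex.norm_real, Real.norm_eq_abs, Complex.norm_natCast]
  rw [hn]
  calc |t| ^ n / n.factorial * ‖ev π (D^[n] (bs w))‖
      ≤ |t| ^ n / n.factorial * (n.factorial * K ^ n * 2 ^ w.norm) := by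
        refine mul_le_mul_of_nonneg_left ((ev_norm π _).trans (hB n w)) (by positivity)
    _ = 2 ^ w.norm * (|t| * K) ^ n := by
        rw [mul_pow]
        field_simp

/-- uniform bound of the terms of the series -/
theorem fa_bound' [DecidableEq κ] (D : GR κ →ₗ[ℂ] GR κ) {K : ℝ} (hK : 0 < K) (hB : Bdd D K)
    (f : GR κ) : ∃ C : ℝ, 0 ≤ C ∧ ∀ (A : Type) [CStarAlgebra A] (t : ℝ)
      (π : FreeGroup κ →* unitary A) (n : ℕ), ‖fa D t π n f‖ ≤ C * (|t| * K) ^ n := by
  induction f using MonoidAlgebra.induction_linear with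
  | zero =>
    refine ⟨0, le_rfl, fun A _ t π n => ?_⟩
    unfold fa
    rw [iter_zero, map_zero, smul_zero, norm_zero, zero_mul]
  | add f g hf hg =>
    obtain ⟨C1, h1, h1'⟩ := hf
    obtain ⟨C2, h2, h2'⟩ := hg
    refine ⟨C1 + C2, add_nonneg h1 h2, fun A _ t π n => ?_⟩
    rw [fa_add, add_mul]
    exact (norm_add_le _ _).trans (add_le_add (h1' A t π n) (h2' A t π n))
  | single w c =>
    refine ⟨‖c‖ * 2 ^ w.norm, by positivity, fun A _ t π n => ?_⟩
    have e : (MonoidAlgebra.single w c : GR κ) = c • bs w := by simp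
    rw [e, fa_smul, norm_smul, mul_assoc]
    exact mul_le_mul_of_nonneg_left (fa_bound D hB t π n w) (norm_nonneg c)

theorem exists_flow [DecidableEq κ] (D : GR κ →ₗ[ℂ] GR κ) (hD : IsDer D) {K : ℝ} (hK : 0 < K)
    (hB : Bdd D K) (π : FreeGroup κ →* unitary A) (t : ℝ) (ht : |t| * K < 1) :
    ∃ π' : FreeGroup κ →* unitary A, AFlow D t π π' := by
  have hsum : ∀ f : GR κ, Summable fun n => ‖fa D t π n f‖ := by
    intro f
    obtain ⟨C, hC, hC'⟩ := fa_bound' D hK hB f
    refine Summable.of_nonneg_of_le (fun n => norm_nonneg _) (fun n => hC' A t π n) ?_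
    refine Summable.mul_left _ ?_
    exact summable_geometric_of_lt_one (by positivity) ht
  have hsum' : ∀ f : GR κ, Summable fun n => fa D t π n f := fun f => (hsum f).of_norm
  set Φ : GR κ → A := fun f => ∑' n, fa D t π n f with hΦ
  have hadd : ∀ f g, Φ (f + g) = Φ f + Φ g := by
    intro f g
    simp only [hΦ]
    rw [← (hsum' f).tsum_add (hsum' g)]
    exact tsum_congr fun n => fa_add D t π n f g
  have hsmul : ∀ (c : ℂ) f, Φ (c • f) = c • Φ f := by
    intro c f
    simp only [hΦ]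
    rw [← (hsum' f).tsum_const_smul c]
    exact tsum_congr fun n => fa_smul D t π n c f
  have hmul : ∀ f g, Φ (f * g) = Φ f * Φ g := by
    intro f g
    simp only [hΦ]
    rw [tsum_mul_tsum_eq_tsum_sum_antidiagonal_of_summable_norm (hsum f) (hsum g)]
    exact tsum_congr fun n => fa_mul D t π hD.leib n f g
  have hD1 : D 1 = 0 := by
    have := hD.leib 1 1
    rw [mul_one, mul_one, one_mul] at this
    exact left_eq_add.mp this
  have hone : Φ 1 = 1 := by
    simp only [hΦ]
    rw [tsum_eq_single 0]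
    · unfold fa
      simp
    · intro n hn
      obtain ⟨m, rfl⟩ := Nat.exists_eq_succ_of_ne_zero hn
      unfold fa
      rw [Nat.succ_eq_add_one, Function.iterate_succ_apply, hD1, iter_zero, map_zero,
        smul_zero]
  have hstar : ∀ f, Φ (st f) = star (Φ f) := by
    intro f
    simp only [hΦ]
    rw [tsum_star]
    exact tsum_congr fun n => fa_star D t π hD.star n f
  have hu : ∀ w : FreeGroup κ, Φ (bs w) ∈ unitary A := by
    intro w
    rw [Unitary.mem_iff]
    constructor
    · rw [← hstar, ← hmul, st_bs, bs_mul, inv_mul_cancel, bs_one, hone]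
    · rw [← hstar, ← hmul, st_bs, bs_mul, mul_inv_cancel, bs_one, hone]
  let π' : FreeGroup κ →* unitary A :=
    { toFun := fun w => ⟨Φ (bs w), hu w⟩
      map_one' := Subtype.ext hone
      map_mul' := fun w w' => Subtype.ext (by
        show Φ (bs (w * w')) = Φ (bs w) * Φ (bs w')
        rw [← hmul, bs_mul]) }
  have hev : ∀ f, ev π' f = Φ f := by
    intro f
    induction f using MonoidAlgebra.induction_linear with
    | zero =>
      rw [map_zero]
      have := hsmul 0 0
      rw [zero_smul, zero_smul] at this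
      exact this.symm
    | add f g hf hg => rw [map_add, hadd, hf, hg]
    | single w c =>
      have e : (MonoidAlgebra.single w c : GR κ) = c • bs w := by simp
      rw [e, map_smul, hsmul]
      congr 1
      rw [ev_bs]
      rfl
  refine ⟨π', fun f => ?_⟩
  rw [hev f]
  exact (hsum' f).hasSum

/-- the flow preserves the law -/
theorem flow_law (h : TS φ) (D : GR κ →ₗ[ℂ] GR κ) (hD : IsDer D) (t : ℝ)
    (π π' : FreeGroup κ →* unitary A) (hF : AFlow D t π π') (hπ : Law φ π) : Law φ π' := by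
  intro w hw
  have h1 := hF (bs w)
  rw [ev_bs] at h1
  have h3 := h1.mapL (φL h)
  have h4 : HasSum (fun n : ℕ => φL h (((t : ℂ) ^ n / (n.factorial : ℂ)) • ev π (D^[n] (bs w))))
      0 := by
    convert hasSum_zero with n
    rw [map_smul, φL_apply, ev_φ h π hπ]
    cases n with
    | zero =>
      have : (bs w : GR κ).coeff 1 = 0 := by
        simp [bs, hw]
      rw [Function.iterate_zero, id_eq, this, smul_zero]
    | succ n =>
      rw [Function.iterate_succ_apply', hD.tr, smul_zero]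
  exact h3.unique h4

/-- elements killed by the derivation do not move -/
theorem flow_fix (D : GR κ →ₗ[ℂ] GR κ) (t : ℝ) (π π' : FreeGroup κ →* unitary A)
    (hF : AFlow D t π π') (f : GR κ) (hf : D f = 0) : ev π' f = ev π f := by
  have h1 := hF f
  have h2 : HasSum (fun n : ℕ => ((t : ℂ) ^ n / (n.factorial : ℂ)) • ev π (D^[n] f))
      (((t : ℂ) ^ 0 / (Nat.factorial 0 : ℂ)) • ev π (D^[0] f)) := by
    refine hasSum_single 0 ?_
    intro n hn
    obtain ⟨m, rfl⟩ := Nat.exists_eq_succ_of_ne_zero hn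
    rw [Nat.succ_eq_add_one, Function.iterate_succ_apply, hf, iter_zero, map_zero, smul_zero]
  rw [h1.unique h2]
  simp

/-- second order Taylor bound -/
theorem flow_taylor [DecidableEq κ] (D : GR κ →ₗ[ℂ] GR κ) {K : ℝ} (hK : 0 < K) (hB : Bdd D K)
    (f : GR κ) : ∃ C : ℝ, 0 ≤ C ∧ ∀ (A : Type) [CStarAlgebra A]
      (π π' : FreeGroup κ →* unitary A) (t : ℝ), |t| * K ≤ 1 / 2 → AFlow D t π π' →
      ‖ev π' f - ev π f - (t : ℂ) • ev π (D f)‖ ≤ C * t ^ 2 := by
  obtain ⟨C, hC, hC'⟩ := fa_bound' D hK hB f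
  refine ⟨2 * C * K ^ 2, by positivity, fun A _ π π' t ht hF => ?_⟩
  have h1 : HasSum (fun n => fa D t π n f) (ev π' f) := hF f
  have h2 := (hasSum_nat_add_iff' 2).2 h1
  have e : ev π' f - ∑ i ∈ range 2, fa D t π i f = ev π' f - ev π f - (t : ℂ) • ev π (D f) := by
    rw [Finset.sum_range_succ, Finset.sum_range_one]
    unfold fa
    simp only [pow_zero, Nat.factorial_zero, Nat.cast_one, div_one, one_smul,
      Function.iterate_zero, id_eq, pow_one, Nat.factorial_one, Function.iterate_one]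
    rw [sub_sub]
  rw [e] at h2
  have h3 : HasSum (fun n : ℕ => C * (|t| * K) ^ 2 * (1 / 2 : ℝ) ^ n) (C * (|t| * K) ^ 2 * 2) :=
    hasSum_geometric_two.mul_left _
  have h4 : ‖ev π' f - ev π f - (t : ℂ) • ev π (D f)‖ ≤ C * (|t| * K) ^ 2 * 2 := by
    refine h2.norm_le_of_bounded h3 fun n => ?_
    refine (hC' A t π (n + 2)).trans ?_
    rw [pow_add, mul_comm ((|t| * K) ^ n), ← mul_assoc]
    exact mul_le_mul_of_nonneg_left (pow_le_pow_left₀ (by positivity) ht n) (by positivity)
  refine h4.trans (le_of_eq ?_)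
  rw [mul_pow, sq_abs]
  ring

end Pool.Agent.H667R4.AF
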