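import Mathlib
import Pool.Agent.H667R4.AF.Flow

/-! The flow for time one, in a C*-algebra with a tracial state. -/

set_option autoImplicit false

open scoped ComplexOrder Topology InnerProductSpace ComplexConjugate
open Filter Finset

namespace Pool.Agent.H667R4.AF

open Pool.Agent.H581R.FF (GR ev bs st l1 l2 Bdd IsDer)
open Pool.Agent.H735G (TS)

variable {A : Type} [CStarAlgebra A] {φ : A →ₗ[ℂ] ℂ} {κ : Type}

theorem norm_exp_sub (x : A) {B : ℝ} (hx : ‖x‖ ≤ B) :
    ‖NormedSpace.exp x - 1 - x‖ ≤ ‖x‖ ^ 2 * Real.exp B := by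
  have h1 : HasSum (fun n => ((n.factorial : ℂ)⁻¹) • x ^ n) (NormedSpace.exp x) :=
    NormedSpace.exp_series_hasSum_exp' x
  have h2 := (hasSum_nat_add_iff' 2).2 h1
  have e : NormedSpace.exp x - ∑ i ∈ range 2, ((i.factorial : ℂ)⁻¹) • x ^ i =
      NormedSpace.exp x - 1 - x := by
    rw [Finset.sum_range_succ, Finset.sum_range_one]
    simp only [pow_zero, Nat.factorial_zero, Nat.cast_one, inv_one, one_smul, pow_one,
      Nat.factorial_one]
    rw [sub_sub]
  rw [e] at h2
  have h3 : HasSum (fun n : ℕ => ‖x‖ ^ 2 * (B ^ n / n.factorial)) (‖x‖ ^ 2 * Real.exp B) := by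
    have := NormedSpace.expSeries_div_hasSum_exp (𝔸 := ℝ) B
    rw [← Real.exp_eq_exp_ℝ] at this
    exact this.mul_left _
  refine h2.norm_le_of_bounded h3 fun n => ?_
  rw [norm_smul, norm_inv, Complex.norm_natCast]
  have hf : (0:ℝ) < n.factorial := by exact_mod_cast n.factorial_pos
  have hf2 : (0:ℝ) < (n + 2).factorial := by exact_mod_cast (n + 2).factorial_pos
  have hle : (n.factorial : ℝ) ≤ (n + 2).factorial := by
    exact_mod_cast Nat.factorial_le (by omega)
  have hpow : ‖x ^ (n + 2)‖ ≤ ‖x‖ ^ 2 * B ^ n := by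
    rcases Nat.eq_zero_or_pos n with rfl | hn
    · rw [pow_zero, mul_one]
      exact norm_pow_le' x (by norm_num)
    · refine (norm_pow_le' x (by omega)).trans ?_
      rw [pow_add, mul_comm]
      exact mul_le_mul_of_nonneg_left (pow_le_pow_left₀ (norm_nonneg _) hx n) (by positivity)
  have hB : 0 ≤ B := (norm_nonneg x).trans hx
  calc ((n + 2).factorial : ℝ)⁻¹ * ‖x ^ (n + 2)‖
      ≤ (n.factorial : ℝ)⁻¹ * (‖x‖ ^ 2 * B ^ n) := by
        refine mul_le_mul (inv_anti₀ hf hle) hpow (norm_nonneg _) (by positivity)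
    _ = ‖x‖ ^ 2 * (B ^ n / n.factorial) := by
        rw [div_eq_mul_inv]; ring

theorem exp_unitary (x : A) (hx : star x = x) (t : ℝ) :
    NormedSpace.exp ((Complex.I * t) • x) ∈ unitary A := by
  let _ : NormedAlgebra ℚ A := NormedAlgebra.restrictScalars ℚ ℂ A
  have h1 : star (NormedSpace.exp ((Complex.I * t) • x)) =
      NormedSpace.exp (-((Complex.I * t) • x)) := by
    rw [NormedSpace.star_exp, star_smul, hx]
    congr 1
    rw [← neg_smul]
    congr 1
    simp
  have h2 : Commute (-((Complex.I * t) • x)) ((Complex.I * t) • x) := (Commute.refl _).neg_left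
  rw [Unitary.mem_iff, h1]
  constructor
  · rw [← NormedSpace.exp_add_of_commute h2, neg_add_cancel, NormedSpace.exp_zero]
  · rw [← NormedSpace.exp_add_of_commute h2.symm, add_neg_cancel, NormedSpace.exp_zero]

theorem nstep [DecidableEq κ] (D : GR κ →ₗ[ℂ] GR κ) (hD : IsDer D) {K : ℝ} (hK : 0 < K)
    (hB : Bdd D K) (k0 E : GR κ) (g u : FreeGroup κ)
    (h1 : D (bs g) = Complex.I • ((k0 + E) * bs g)) (h2 : D k0 = 0) (h3 : st k0 = k0)
    {η : ℝ} (hη : 0 < η) :
    ∀ (A : Type) [CStarAlgebra A] (φ : A →ₗ[ℂ] ℂ), TS φ →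
    ∀ (π : FreeGroup κ →* unitary A), Law φ π →
    ∃ π' : FreeGroup κ →* unitary A, Law φ π' ∧
      (∀ w, D (bs w) = 0 → π' w = π w) ∧
      nn φ ((π' u : A) - (π u : A)) ≤ l2 (D (bs u)) + η ∧
      nn φ ((π' g : A) - NormedSpace.exp (Complex.I • ev π k0) * (π g : A)) ≤ l2 E + η := by
  obtain ⟨C1, hC1, hC1'⟩ := flow_taylor D hK hB (bs u)
  obtain ⟨C2, hC2, hC2'⟩ := flow_taylor D hK hB (bs g)
  set B : ℝ := l1 k0 with hBdef
  have hB0 : 0 ≤ B := by
    rw [hBdef]; unfold l1; positivity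
  set C3 : ℝ := C2 + B ^ 2 * Real.exp B with hC3
  have hC3' : 0 ≤ C3 := by positivity
  obtain ⟨N, hN⟩ := exists_nat_gt (max (max (2 * K) (C1 / η)) (max (C3 / η) 1))
  have hN1 : 2 * K < N := lt_of_le_of_lt (le_max_of_le_left (le_max_left _ _)) hN
  have hN2 : C1 / η < N := lt_of_le_of_lt (le_max_of_le_left (le_max_right _ _)) hN
  have hN3 : C3 / η < N := lt_of_le_of_lt (le_max_of_le_right (le_max_left _ _)) hN
  have hN4 : (1 : ℝ) < N := lt_of_le_of_lt (le_max_of_le_right (le_max_right _ _)) hN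
  have hN0 : (0 : ℝ) < N := by linarith
  set t : ℝ := 1 / N with ht
  have ht0 : 0 < t := by positivity
  have htK : |t| * K ≤ 1 / 2 := by
    rw [abs_of_pos ht0, ht, div_mul_eq_mul_div, one_mul, div_le_iff₀ hN0]
    linarith
  intro A _ φ h π hπ
  let _ : NormedAlgebra ℚ A := NormedAlgebra.restrictScalars ℚ ℂ A
  set X : A := ev π k0 with hX
  have hXs : star X = X := by rw [hX, ← ev_st, h3]
  have hXn : ‖X‖ ≤ B := ev_norm π k0
  -- the unitary `exp (i t X)`
  have key : ∀ j : ℕ, ∃ ρ : FreeGroup κ →* unitary A, Law φ ρ ∧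
      (∀ f, D f = 0 → ev ρ f = ev π f) ∧
      nn φ ((ρ u : A) - (π u : A)) ≤ j * (t * l2 (D (bs u)) + C1 * t ^ 2) ∧
      nn φ ((ρ g : A) - NormedSpace.exp ((Complex.I * (j * t : ℝ)) • X) * (π g : A)) ≤
        j * (t * l2 E + C3 * t ^ 2) := by
    intro j
    induction j with
    | zero =>
      refine ⟨π, hπ, fun _ _ => rfl, ?_, ?_⟩
      · rw [sub_self, nn_zero]
        simp
      · simp [NormedSpace.exp_zero, nn_zero]
    | succ j ih =>
      obtain ⟨ρ, hρ1, hρ2, hρ3, hρ4⟩ := ih
      obtain ⟨ρ', hρ'⟩ := exists_flow D hD hK hB ρ t (by linarith)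
      have hX' : ev ρ k0 = X := hρ2 k0 h2
      refine ⟨ρ', flow_law h D hD t ρ ρ' hρ' hρ1, ?_, ?_, ?_⟩
      · intro f hf
        rw [flow_fix D t ρ ρ' hρ' f hf, hρ2 f hf]
      · have e1 := hC1' A ρ ρ' t htK hρ'
        rw [ev_bs, ev_bs] at e1
        have e2 : nn φ ((ρ' u : A) - (ρ u : A)) ≤ t * l2 (D (bs u)) + C1 * t ^ 2 := by
          have e3 : (ρ' u : A) - (ρ u : A) = (t : ℂ) • ev ρ (D (bs u)) +
              ((ρ' u : A) - (ρ u : A) - (t : ℂ) • ev ρ (D (bs u))) := by abel
          rw [e3]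
          refine (nn_add_le h _ _).trans (add_le_add ?_ ((nn_le_norm h _).trans e1))
          rw [nn_smul, ev_nn h ρ hρ1, Complex.norm_real, Real.norm_eq_abs, abs_of_pos ht0]
        refine (nn_tri h _ (ρ u : A) _).trans ?_
        push_cast
        linarith
      · have e1 := hC2' A ρ ρ' t htK hρ'
        rw [ev_bs, ev_bs, h1, map_smul, map_mul, map_add, ev_bs, hX'] at e1
        set Y : A := (Complex.I * t) • X with hY
        have hYn : ‖Y‖ = t * ‖X‖ := by
          rw [hY, norm_smul, norm_mul, Complex.norm_I, one_mul, Complex.norm_real,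
            Real.norm_eq_abs, abs_of_pos ht0]
        have ht1 : t ≤ 1 := by
          rw [ht, div_le_one hN0]; exact hN4.le
        have hYB : ‖Y‖ ≤ B := by
          rw [hYn]
          calc t * ‖X‖ ≤ 1 * ‖X‖ := mul_le_mul_of_nonneg_right ht1 (norm_nonneg _)
            _ = ‖X‖ := one_mul _
            _ ≤ B := hXn
        have e2 := norm_exp_sub Y hYB
        have e3 : ‖(NormedSpace.exp Y - 1 - Y) * (ρ g : A)‖ ≤ B ^ 2 * Real.exp B * t ^ 2 := by
          calc ‖(NormedSpace.exp Y - 1 - Y) * (ρ g : A)‖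
              ≤ ‖NormedSpace.exp Y - 1 - Y‖ * ‖(ρ g : A)‖ := norm_mul_le _ _
            _ ≤ ‖NormedSpace.exp Y - 1 - Y‖ * 1 :=
                mul_le_mul_of_nonneg_left (norm_unitary_le _) (norm_nonneg _)
            _ ≤ ‖Y‖ ^ 2 * Real.exp B := by rw [mul_one]; exact e2
            _ = (t * ‖X‖) ^ 2 * Real.exp B := by rw [hYn]
            _ ≤ (t * B) ^ 2 * Real.exp B := by gcongr
            _ = B ^ 2 * Real.exp B * t ^ 2 := by ring
        have e4 : (ρ' g : A) - NormedSpace.exp Y * (ρ g : A) =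
            (Complex.I * t) • (ev ρ E * (ρ g : A)) +
            (((ρ' g : A) - (ρ g : A) - (t : ℂ) • Complex.I • ((X + ev ρ E) * (ρ g : A))) -
              (NormedSpace.exp Y - 1 - Y) * (ρ g : A)) := by
          rw [hY]
          simp only [add_mul, sub_mul, smul_add, smul_mul_assoc, one_mul, smul_smul]
          rw [mul_comm (t : ℂ) Complex.I]
          abel
        have e5 : nn φ ((Complex.I * t) • (ev ρ E * (ρ g : A))) = t * l2 E := by
          rw [nn_smul, nn_mul_unitary h, ev_nn h ρ hρ1, norm_mul, Complex.norm_I, one_mul,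
            Complex.norm_real, Real.norm_eq_abs, abs_of_pos ht0]
        have e6 : nn φ ((ρ' g : A) - NormedSpace.exp Y * (ρ g : A)) ≤ t * l2 E + C3 * t ^ 2 := by
          rw [e4]
          refine (nn_add_le h _ _).trans ?_
          rw [e5]
          refine add_le_add le_rfl ?_
          refine (nn_le_norm h _).trans ((norm_sub_le _ _).trans ?_)
          refine (add_le_add e1 e3).trans (le_of_eq ?_)
          rw [hC3]
          ring
        have e7 : NormedSpace.exp ((Complex.I * ((j + 1 : ℕ) * t : ℝ)) • X) =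
            NormedSpace.exp Y * NormedSpace.exp ((Complex.I * (j * t : ℝ)) • X) := by
          rw [← NormedSpace.exp_add_of_commute]
          · rw [hY, ← add_smul]
            congr 2
            push_cast
            ring
          · rw [hY]
            exact ((Commute.refl X).smul_left _).smul_right _
        have hYu : NormedSpace.exp Y ∈ unitary A := exp_unitary X hXs t
        have e8 : (ρ' g : A) - NormedSpace.exp ((Complex.I * ((j + 1 : ℕ) * t : ℝ)) • X) *
            (π g : A) = ((ρ' g : A) - NormedSpace.exp Y * (ρ g : A)) +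
            ((⟨NormedSpace.exp Y, hYu⟩ : unitary A) : A) * ((ρ g : A) -
              NormedSpace.exp ((Complex.I * (j * t : ℝ)) • X) * (π g : A)) := by
          rw [e7, mul_sub, mul_assoc]
          abel
        rw [e8]
        refine (nn_add_le h _ _).trans ?_
        rw [nn_unitary_mul]
        push_cast at hρ4 ⊢
        linarith
  obtain ⟨ρ, hρ1, hρ2, hρ3, hρ4⟩ := key N
  have hNt : (N : ℝ) * t = 1 := by rw [ht]; field_simp
  refine ⟨ρ, hρ1, ?_, ?_, ?_⟩
  · intro w hw
    have := hρ2 (bs w) hw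
    rw [ev_bs, ev_bs] at this
    exact Subtype.ext this
  · refine hρ3.trans ?_
    have e1 : (N : ℝ) * (t * l2 (D (bs u)) + C1 * t ^ 2) = (N * t) * l2 (D (bs u)) +
        C1 * t * (N * t) := by ring
    rw [e1, hNt, one_mul, mul_one]
    have e2 : C1 * t ≤ η := by
      rw [ht, mul_one_div, div_le_iff₀ hN0]
      rw [div_lt_iff₀ hη] at hN2
      linarith
    linarith
  · have e0 : ((Complex.I * (N * t : ℝ)) • X : A) = Complex.I • X := by
      rw [hNt]
      simp
    rw [e0] at hρ4
    refine hρ4.trans ?_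
    have e1 : (N : ℝ) * (t * l2 E + C3 * t ^ 2) = (N * t) * l2 E + C3 * t * (N * t) := by ring
    rw [e1, hNt, one_mul, mul_one]
    have e2 : C3 * t ≤ η := by
      rw [ht, mul_one_div, div_le_iff₀ hN0]
      rw [div_lt_iff₀ hη] at hN3
      linarith
    linarith

end Pool.Agent.H667R4.AF
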